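import Mathlib

/-!
# The average size of the 3-Selmer group of elliptic curves over `F(t)`: definitions

`F` is a field (in the theorem: finite, of odd order), `F[X]` the polynomial ring in one variable,
`RatFunc F` its field of fractions, the rational function field `K = F(t)`.  The elliptic curves are
`E_f : y² = x³ + a x² + b x + c` for triples `f = (a, b, c)` of polynomials.

The 3-Selmer group of an elliptic curve `E` consists of the classes in `H¹(K, E[3])` which are
everywhere locally in the image of `E(K_v) / 3 E(K_v)`.  It is described in the classical way by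
ternary cubic forms, that is by plane cubic curves with Jacobian `E`: classes in `H¹(K, E[3])` of
trivial obstruction (all classes in the Selmer group have trivial obstruction) correspond to forms
modulo the equivalence `Eqv`, the class of a point `P` in `E(K_v) / 3 E(K_v)` corresponds to the curve
`E` embedded in the plane by the divisor `2 O + P`, which is the form of `P` in `OfPoint`, and so the
elements of the Selmer group are the classes of the forms over `K` which over every completion `K_v`
are equivalent to the form of a point of `E(K_v)` (`Sel3`).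
-/

set_option autoImplicit false

open Polynomial Matrix

namespace Pool.SC3

section General

/-- `G / 3G`. -/
abbrev Mod3 (G : Type) [AddCommGroup G] : Type := G ⧸ (nsmulAddMonoidHom (α := G) 3).range

/-- The triple of the images. -/
def im {R L : Type} [CommRing R] [CommRing L] (ι : R →+* L) (f : R × R × R) : L × L × L :=
  (ι f.1, ι f.2.1, ι f.2.2)

variable {K : Type} [Field K]

/-- The curve `E_f : y² = x³ + a x² + b x + c`, `f = (a, b, c)`. -/
def E (f : K × K × K) : WeierstrassCurve K := ⟨0, f.1, 0, f.2.1, f.2.2⟩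

open Classical in
/-- The group `E_f(K)` is finitely generated. -/
def FinGen (f : K × K × K) : Prop := AddGroup.FG (E f).toAffine.Point

open Classical in
/-- The rank of the group `E_f(K)`. -/
noncomputable def rank (f : K × K × K) : ℕ := Module.finrank ℤ (E f).toAffine.Point

open Classical in
/-- The order of the group `E_f(K) / 3 E_f(K)`. -/
noncomputable def card3 (f : K × K × K) : ℕ := Nat.card (Mod3 (E f).toAffine.Point)

/-- The ternary cubic form with the ten coefficients `C`. -/
def cub (C : Fin 10 → K) (X Y Z : K) : K :=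
  C 0 * X ^ 3 + C 1 * (X ^ 2 * Y) + C 2 * (X ^ 2 * Z) + C 3 * (X * Y ^ 2) + C 4 * (X * Y * Z) +
    C 5 * (X * Z ^ 2) + C 6 * Y ^ 3 + C 7 * (Y ^ 2 * Z) + C 8 * (Y * Z ^ 2) + C 9 * Z ^ 3

/-- The value of `φ` at the vector `v`. -/
def val (φ : K → K → K → K) (v : Fin 3 → K) : K := φ (v 0) (v 1) (v 2)

/-- The forms `φ` and `ψ` over the infinite field `K` are equivalent: `φ(g v) = det(g) ψ(v)` for an
invertible matrix `g`. -/
def Eqv (φ ψ : K → K → K → K) : Prop :=
  ∃ g : Matrix (Fin 3) (Fin 3) K, g.det ≠ 0 ∧ ∀ v : Fin 3 → K, val φ (g *ᵥ v) = g.det * val ψ v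

/-- The form `ψ` is equivalent to the form of a point of `E_f`: to the form
`X³ + a X²Z + b XZ² - Y²Z + c Z³` of the point at infinity or to the form
`X²Y - x X²Z - 2y XZ² - Y²Z - (x + a) YZ² - (x² + a x + b) Z³` of a point `(x, y)` of `E_f`. -/
def OfPoint (f : K × K × K) (ψ : K → K → K → K) : Prop :=
  Eqv (fun X Y Z => X ^ 3 + f.1 * X ^ 2 * Z + f.2.1 * X * Z ^ 2 - Y ^ 2 * Z + f.2.2 * Z ^ 3) ψ ∨
    ∃ x y : K, (E f).toAffine.Nonsingular x y ∧
      Eqv (fun X Y Z => X ^ 2 * Y - x * X ^ 2 * Z - 2 * y * X * Z ^ 2 - Y ^ 2 * Z -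
        (x + f.1) * Y * Z ^ 2 - (x ^ 2 + f.1 * x + f.2.1) * Z ^ 3) ψ

/-- Over the extension `L` of `K` the form with the coefficients `C` is equivalent to the form of a
point of `E_f`. -/
def LocAt {L : Type} [Field L] (ι : K →+* L) (f : K × K × K) (C : Fin 10 → K) : Prop :=
  OfPoint (im ι f) (cub fun i => ι (C i))

/-- `LocAt` over all completions of `K` at the primes of the Dedekind domain `A`, `K` the field of
fractions of `A`. -/
def LocFin (A : Type) [CommRing A] [IsDedekindDomain A] [Algebra A K] [IsFractionRing A K]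
    (f : K × K × K) (C : Fin 10 → K) : Prop :=
  ∀ v : IsDedekindDomain.HeightOneSpectrum A, LocAt (algebraMap K (v.adicCompletion K)) f C

end General

section Families

variable {F : Type} [Field F]

/-- The triple `f` of polynomials as a triple of rational functions. -/
noncomputable def kf (f : F[X] × F[X] × F[X]) : RatFunc F × RatFunc F × RatFunc F :=
  im (algebraMap F[X] (RatFunc F)) f

open Classical in
/-- The ternary cubic forms over `F(t)` which over every completion of `F(t)` (the completion at
infinity included) are equivalent to the form of a point of `E_f`. -/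
def SelSet (f : F[X] × F[X] × F[X]) : Set (Fin 10 → RatFunc F) :=
  {C | LocFin F[X] (kf f) C ∧
    LocAt (algebraMap (RatFunc F) (RatFunc.CompletionAtInfty F)) (kf f) C}

/-- The `3`-Selmer group of `E_f` over `F(t)`, as a set: the forms in `SelSet f` modulo
equivalence. -/
def Sel3 (f : F[X] × F[X] × F[X]) : Type := Quot fun C C' : SelSet f => Eqv (cub C.1) (cub C'.1)

variable (F)

/-- The polynomials `a, b, c` of degree at most `2n, 4n, 6n`. -/
def Fam (n : ℕ) : Set (F[X] × F[X] × F[X]) :=
  {f | f.1.natDegree ≤ 2 * n ∧ f.2.1.natDegree ≤ 4 * n ∧ f.2.2.natDegree ≤ 6 * n}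

/-- The equations of nonzero discriminant. -/
def Ell (n : ℕ) : Set (F[X] × F[X] × F[X]) := {f ∈ Fam F n | (E (kf f)).Δ ≠ 0}

/-- The equations of nonzero discriminant; moreover `a ≠ 0` in characteristic three. -/
def El (n : ℕ) : Set (F[X] × F[X] × F[X]) := {f ∈ Ell F n | (3 : F) = 0 → f.1 ≠ 0}

/-- The short equations `y² = x³ + b x + c` of nonzero discriminant. -/
def Sht (n : ℕ) : Set (F[X] × F[X] × F[X]) := {f ∈ Ell F n | f.1 = 0}

/-- The minimal short equations of height exactly `n`. -/
def ShtM (n : ℕ) : Set (F[X] × F[X] × F[X]) :=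
  {f ∈ Sht F n | (∀ P : F[X], P.Monic → Irreducible P → ¬ (P ^ 4 ∣ f.2.1 ∧ P ^ 6 ∣ f.2.2)) ∧
    ¬ (1 ≤ n ∧ f ∈ Fam F (n - 1))}

variable {F}

/-- For the family `S n` of equations: the average size of the 3-Selmer group tends to 4; the average
of `3 ^ rank` is at most `4 + o(1)`, the average rank is at most `7 / 6 + o(1)`, and the rank is at
most one for a proportion at least `5 / 8 - o(1)`. -/
def Avg3 (S : ℕ → Set (F[X] × F[X] × F[X])) : Prop :=
  (∀ n : ℕ, (S n).Finite) ∧ (∃ N : ℕ, ∀ n : ℕ, N ≤ n → (S n).Nonempty) ∧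
  Filter.Tendsto (fun n : ℕ => (∑ᶠ f ∈ S n, (Nat.card (Sel3 f) : ℝ)) / (S n).ncard)
    Filter.atTop (nhds 4) ∧
  ∀ ε : ℝ, 0 < ε → ∃ N : ℕ, ∀ n : ℕ, N ≤ n →
    ∑ᶠ f ∈ S n, (3 : ℝ) ^ rank (kf f) ≤ (4 + ε) * (S n).ncard ∧
    ∑ᶠ f ∈ S n, (rank (kf f) : ℝ) ≤ (7 / 6 + ε) * (S n).ncard ∧
    (5 / 8 - ε) * (S n).ncard ≤ {f ∈ S n | rank (kf f) ≤ 1}.ncard

end Families

end Pool.SC3
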