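import Pool.Agent.H8.SC3.Defs
import Pool.Agent.H12.AV3C.All3
import Pool.Agent.H8.AV3C.Fin3
import Pool.Agent.H15.AVS.SHC
import Pool.Agent.H57.AVS.SHM

/-!
# The average size of the 3-Selmer group: comparison of the definitions, and the theorem
-/

set_option autoImplicit false

open Polynomial Matrix

namespace Pool.SC3

section Same

open Pool.AVR (disc)

variable {K : Type} [Field K]

theorem val_eq (c : Fin 10 → K) (v : Fin 3 → K) : val (cub c) v = Pool.AV3.tev c v := rfl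

/-- A ternary cubic form which vanishes everywhere is zero if the field has more than two
elements. -/
theorem cub_zero {t : K} (h0 : t ≠ 0) (h1 : t ≠ 1) {c : Fin 10 → K} (h : ∀ x y z, cub c x y z = 0) :
    c = 0 := by
  have key : ∀ u w : K, u + w = 0 → u * t ^ 2 + w * t = 0 → u = 0 ∧ w = 0 := by
    intro u w e1 e2
    have hw : w = -u := by linear_combination e1
    rw [hw] at e2
    have e3 : u * (t * (t - 1)) = 0 := by linear_combination e2
    have hu : u = 0 := by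
      rcases mul_eq_zero.1 e3 with h | h
      · exact h
      · exact absurd h (mul_ne_zero h0 (sub_ne_zero.2 h1))
    exact ⟨hu, by rw [hw, hu, neg_zero]⟩
  have a0 := h 1 0 0
  have a6 := h 0 1 0
  have a9 := h 0 0 1
  simp [cub] at a0 a6 a9
  have b1 := h 1 1 0
  have b2 := h t 1 0
  simp [cub, a0, a6, a9] at b1 b2
  have b3 := h 1 0 1
  have b4 := h t 0 1
  simp [cub, a0, a6, a9] at b3 b4
  have b5 := h 0 1 1
  have b6 := h 0 t 1
  simp [cub, a0, a6, a9] at b5 b6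
  obtain ⟨a1, a3⟩ := key _ _ b1 b2
  obtain ⟨a2, a5⟩ := key _ _ b3 b4
  obtain ⟨a7, a8⟩ := key _ _ b5 b6
  have a4 := h 1 1 1
  simp [cub, a0, a1, a2, a3, a5, a6, a7, a8, a9] at a4
  funext i
  fin_cases i <;> assumption

theorem tev_inj {t : K} (h0 : t ≠ 0) (h1 : t ≠ 1) {c c' : Fin 10 → K}
    (h : ∀ v, Pool.AV3.tev c v = Pool.AV3.tev c' v) : c = c' := by
  have h2 : c - c' = 0 := by
    apply cub_zero h0 h1
    intro x y z
    have h3 := h ![x, y, z]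
    rw [← val_eq, ← val_eq] at h3
    simp only [val, cub, Pi.sub_apply, Matrix.cons_val] at h3 ⊢
    linear_combination h3
  exact sub_eq_zero.1 h2

theorem eqv_iff {t : K} (h0 : t ≠ 0) (h1 : t ≠ 1) {c c' : Fin 10 → K} :
    Eqv (cub c) (cub c') ↔ ∃ g, Pool.AV3.Eqv g c c' := by
  constructor
  · rintro ⟨g, hg, h⟩
    refine ⟨g, isUnit_iff_ne_zero.2 hg, tev_inj h0 h1 fun v => ?_⟩
    rw [Pool.AV3.tev_tsub, Pool.AV3.tev_smul_form]
    exact h v
  · rintro ⟨g, h⟩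
    exact ⟨g, isUnit_iff_ne_zero.1 h.1, fun v => h.tev v⟩

theorem formO_eq (f : K × K × K) :
    (fun X Y Z => X ^ 3 + f.1 * X ^ 2 * Z + f.2.1 * X * Z ^ 2 - Y ^ 2 * Z + f.2.2 * Z ^ 3) =
      cub (Pool.AV3.FO f.1 f.2.1 f.2.2) := by
  funext X Y Z
  simp only [cub, Pool.AV3.FO, Matrix.cons_val]
  ring

theorem formP_eq (f : K × K × K) (x y : K) :
    (fun X Y Z => X ^ 2 * Y - x * X ^ 2 * Z - 2 * y * X * Z ^ 2 - Y ^ 2 * Z -
      (x + f.1) * Y * Z ^ 2 - (x ^ 2 + f.1 * x + f.2.1) * Z ^ 3) =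
      cub (Pool.AV3.FP f.1 f.2.1 x y) := by
  funext X Y Z
  simp only [cub, Pool.AV3.FP, Matrix.cons_val]
  ring

theorem ofPoint_iff {t : K} (h0 : t ≠ 0) (h1 : t ≠ 1) {f : K × K × K} {c : Fin 10 → K} :
    OfPoint f (cub c) ↔ Pool.AV3.Cls f c := by
  unfold OfPoint
  simp only [formO_eq, formP_eq]
  constructor
  · rintro (h | ⟨x, y, hxy, h⟩)
    · obtain ⟨g, hg⟩ := (eqv_iff h0 h1).1 h
      exact ⟨.zero, g, hg⟩
    · obtain ⟨g, hg⟩ := (eqv_iff h0 h1).1 h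
      exact ⟨.some x y hxy, g, hg⟩
  · rintro ⟨P, g, hg⟩
    cases P with
    | zero => exact Or.inl ((eqv_iff h0 h1).2 ⟨g, hg⟩)
    | some x y hxy => exact Or.inr ⟨x, y, hxy, (eqv_iff h0 h1).2 ⟨g, hg⟩⟩

variable {F : Type} [Field F]

theorem X_ne_one : (RatFunc.X : RatFunc F) ≠ 1 := by
  intro h
  have h3 := congrArg (fun p => (RatFunc.num p).natDegree) h
  simp at h3

theorem locAt_iff {L : Type} [Field L] (ι : RatFunc F →+* L) (f : F[X] × F[X] × F[X])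
    (c : Fin 10 → RatFunc F) :
    LocAt ι (kf f) c ↔ Pool.AV3.Cls (Pool.AV3.k3 ι f) (fun i => ι (c i)) := by
  have h0 : ι RatFunc.X ≠ 0 := (_root_.map_ne_zero _).2 RatFunc.X_ne_zero
  have h1 : ι RatFunc.X ≠ 1 := by
    intro h
    exact X_ne_one (ι.injective (h.trans (map_one _).symm))
  exact ofPoint_iff h0 h1

theorem selSet_eq (f : F[X] × F[X] × F[X]) : SelSet f = Pool.AV3.SelSet f := by
  ext c
  simp only [SelSet, Pool.AV3.SelSet, Set.mem_ofPred_eq, LocFin, locAt_iff]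

/-- The bijection of the two descriptions. -/
def sel3Equiv (f : F[X] × F[X] × F[X]) : Sel3 f ≃ Pool.AV3.Sel3 f :=
  Quot.congr (Equiv.setCongr (selSet_eq f)) fun _ _ =>
    eqv_iff (t := (RatFunc.X : RatFunc F)) RatFunc.X_ne_zero X_ne_one

theorem card_sel3 (f : F[X] × F[X] × F[X]) : Nat.card (Sel3 f) = Nat.card (Pool.AV3.Sel3 f) :=
  Nat.card_congr (sel3Equiv f)

theorem finite_sel3 (f : F[X] × F[X] × F[X]) : Finite (Sel3 f) ↔ Finite (Pool.AV3.Sel3 f) :=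
  (sel3Equiv f).finite_iff

theorem rank_eq (f : F[X] × F[X] × F[X]) : rank (kf f) = Pool.AVR.rk f := rfl

open Classical in
theorem card3_eq (f : F[X] × F[X] × F[X]) : card3 (kf f) = Nat.card (Pool.AV3.Mod3 (Pool.AVR.EK f)) := rfl

open Classical in
theorem finGen_iff (f : F[X] × F[X] × F[X]) : FinGen (kf f) ↔ AddGroup.FG (Pool.AVR.EK f) := Iff.rfl

theorem avg3_iff (S : ℕ → Set (F[X] × F[X] × F[X])) : Avg3 S ↔ Pool.AV3.Avg3 S := by
  unfold Avg3 Pool.AV3.Avg3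
  simp only [card_sel3, rank_eq]

theorem ell_eq (h2 : (2 : F) ≠ 0) (n : ℕ) : Ell F n = Pool.AVR.Ell F n := by
  ext f
  have h2K : (2 : RatFunc F) ≠ 0 := by
    intro h
    apply h2
    have h3 : algebraMap F (RatFunc F) 2 = algebraMap F (RatFunc F) 0 := by
      rw [map_ofNat, map_zero]
      exact h
    exact (algebraMap F (RatFunc F)).injective h3
  have e : (E (kf f)).Δ = 2 ^ 4 * algebraMap F[X] (RatFunc F) (disc f.1 f.2.1 f.2.2) := by
    simp only [WeierstrassCurve.Δ, WeierstrassCurve.b₂, WeierstrassCurve.b₄, WeierstrassCurve.b₆,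
      WeierstrassCurve.b₈, E, kf, im, disc, map_add, map_sub, map_mul, map_pow, map_ofNat]
    ring
  have h3 : (E (kf f)).Δ ≠ 0 ↔ disc f.1 f.2.1 f.2.2 ≠ 0 := by
    rw [e, mul_ne_zero_iff, and_iff_right (pow_ne_zero _ h2K),
      map_ne_zero_iff _ (IsFractionRing.injective F[X] (RatFunc F))]
  exact and_congr Iff.rfl h3

theorem el_eq (h2 : (2 : F) ≠ 0) : El F = Pool.AV3.El F := by
  funext n
  ext f
  simp only [El, Pool.AV3.El, Set.mem_ofPred_eq, ell_eq h2]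
  exact and_congr Iff.rfl imp_iff_not_or

theorem sht_eq (h2 : (2 : F) ≠ 0) : Sht F = Pool.AVS.Sht F := by
  funext n
  ext f
  simp only [Sht, Pool.AVS.Sht, Set.mem_ofPred_eq, ell_eq h2]

theorem shtM_eq (h2 : (2 : F) ≠ 0) : ShtM F = Pool.AVS.ShtM F := by
  funext n
  ext f
  simp only [ShtM, Pool.AVS.ShtM, Set.mem_ofPred_eq, sht_eq h2]
  exact Iff.rfl

end Same

theorem main (F : Type) [Field F] [Finite F] (h2 : (2 : F) ≠ 0) :
    (∀ n : ℕ, ∀ f ∈ Ell F n, FinGen (kf f)) ∧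
    (∀ n : ℕ, ∀ f ∈ El F n, Finite (Sel3 f) ∧
      3 ^ rank (kf f) ≤ card3 (kf f) ∧ card3 (kf f) ≤ Nat.card (Sel3 f)) ∧
    (∀ n : ℕ, 1 ≤ n → (Fam F n).ncard = Nat.card F ^ (12 * n + 3) ∧
      {f ∈ Fam F n | f ∉ El F n}.ncard ≤ 3 * Nat.card F ^ (10 * n + 3)) ∧
    Avg3 (El F) ∧ ((3 : F) ≠ 0 → Avg3 (Sht F) ∧ Avg3 (ShtM F)) := by
  simp only [card_sel3, finite_sel3, rank_eq, card3_eq, finGen_iff, avg3_iff, el_eq h2, sht_eq h2,
    shtM_eq h2, ell_eq h2]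
  obtain ⟨h1, h3, h4, h5, h6⟩ := Pool.AV3.main3_of Pool.AV3.fn3_thm Pool.AVS.shc_thm
    Pool.AVS.shm_thm F h2
  exact ⟨fun n f hf => (h1 n f hf).2, fun n f hf => ⟨(h3 n f hf).1, (h3 n f hf).2.2,
    (h3 n f hf).2.1⟩, h4, h5, h6⟩

end Pool.SC3
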