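import Pool.Agent.H12.AV3C.All3
import Pool.Agent.H8.AV3C.Fin3
import Pool.Agent.H15.AVS.SHC
import Pool.Agent.H57.AVS.SHM

/-!
# MP_81dc49: the average size of the 3-Selmer group of the elliptic curves over `F(t)`, `F` any
finite field of odd order, is exactly 4

`K = F(t)` and `E_f : y² = x³ + a x² + b x + c` for `f = (a, b, c)`, `a, b, c ∈ F[t]` of degree at
most `2n, 4n, 6n` (`Ell F n`: nonzero discriminant; `El F n`: moreover `a ≠ 0` if `F` has
characteristic three).  `Sel3 f` is the 3-Selmer group of `E_f` as the set of classes of everywhere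
locally soluble ternary cubic forms with Jacobian `E_f`.  `Sht F n`: the short equations (`a = 0`),
`ShtM F n`: the minimal short equations of height exactly `n`.
-/

open Polynomial Pool.AVR Pool.AVS Pool.AV3

namespace Pool.SC3.Old

open Classical in
theorem result (F : Type) [Field F] [Finite F] (h2 : (2 : F) ≠ 0) :
    (∀ n : ℕ, ∀ f ∈ Ell F n, (E (algebraMap F[X] (RatFunc F) f.1)
        (algebraMap F[X] (RatFunc F) f.2.1) (algebraMap F[X] (RatFunc F) f.2.2)).Δ ≠ 0 ∧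
      AddGroup.FG (EK f)) ∧
    (∀ n : ℕ, ∀ f ∈ El F n, Finite (Sel3 f) ∧
      Nat.card (Mod3 (EK f)) ≤ Nat.card (Sel3 f) ∧
      3 ^ rk f ≤ Nat.card (Mod3 (EK f))) ∧
    (∀ n : ℕ, 1 ≤ n → (Fam F n).ncard = Nat.card F ^ (12 * n + 3) ∧
      {f ∈ Fam F n | f ∉ El F n}.ncard ≤ 3 * Nat.card F ^ (10 * n + 3)) ∧
    Avg3 (El F) ∧ ((3 : F) ≠ 0 → Avg3 (Sht F) ∧ Avg3 (ShtM F)) :=
  main3_of fn3_thm shc_thm shm_thm F h2

end Pool.SC3.Old
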